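import Pool.Agent.Helper28.MT.Goals

/-!
# Project MT (MP_bb782b_co), packet R1: exponential moment count for one set
-/

set_option autoImplicit false

namespace Pool.Agent.Helper12.MT

open Finset
open Pool.Agent.Helper28.MT

theorem mt_r1 : G_R1 := by
  intro α _ _ N D X hD
  classical
  set w : α → Fin N → ℕ := fun x c => if x ∈ X ∧ c ∈ D then 2 ^ 24 else 1 with hw
  have h1 : ∑ f : α → Fin N, ∏ x, w x (f x) = ∏ x, ∑ c, w x c := by
    rw [Finset.prod_univ_sum, Fintype.piFinset_univ]
  have h2 : ∏ x, ∑ c, w x c ≤ N ^ Fintype.card α * 2 ^ X.card := by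
    have e1 : ∀ x, ∑ c, w x c ≤ N * (if x ∈ X then 2 else 1) := by
      intro x
      by_cases hx : x ∈ X
      · rw [if_pos hx]
        have e2 : ∑ c, w x c = ∑ c : Fin N, (if c ∈ D then 2 ^ 24 else 1) := by
          refine sum_congr rfl fun c _ => ?_
          simp [hw, hx]
        rw [e2, sum_ite]
        simp only [sum_const, smul_eq_mul, mul_one]
        have e3 : (univ.filter (fun c => c ∈ D)) = D := by ext c; simp
        have e4 : (univ.filter (fun c : Fin N => c ∉ D)).card ≤ N := by
          refine (card_le_univ _).trans ?_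
          rw [Fintype.card_fin]
        rw [e3]
        omega
      · rw [if_neg hx]
        have e2 : ∑ c, w x c = ∑ _c : Fin N, 1 := by
          refine sum_congr rfl fun c _ => ?_
          simp [hw, hx]
        rw [e2]
        simp
    refine (prod_le_prod' fun x _ => e1 x).trans ?_
    rw [prod_mul_distrib, prod_const, card_univ, prod_ite, prod_const, prod_const, one_pow, mul_one]
    have e3 : (univ.filter (fun c => c ∈ X)) = X := by ext c; simp
    rw [e3]
  have h3 : (univ.filter (fun f : α → Fin N => 3 * X.card <
      4 * (X.filter (fun x => f x ∈ D)).card)).card * 2 ^ (18 * X.card) ≤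
      ∑ f : α → Fin N, ∏ x, w x (f x) := by
    rw [← smul_eq_mul, ← sum_const]
    refine (sum_le_sum (g := fun f => ∏ x, w x (f x)) ?_).trans
      (sum_le_sum_of_subset (filter_subset _ _))
    intro f hf
    rw [mem_filter] at hf
    have e1 : ∏ x, w x (f x) = (2 ^ 24) ^ (X.filter (fun x => f x ∈ D)).card := by
      simp only [hw]
      rw [prod_ite, prod_const, prod_const, one_pow, mul_one]
      congr 2
      ext x
      simp
    rw [e1, ← pow_mul]
    exact Nat.pow_le_pow_right (by norm_num) (by omega)
  have h4 := h3.trans (h1.le.trans h2)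
  have h5 : 2 ^ (18 * X.card) = 2 ^ (17 * X.card) * 2 ^ X.card := by
    rw [← pow_add]
    congr 1
    ring
  rw [h5, ← mul_assoc] at h4
  exact Nat.le_of_mul_le_mul_right h4 (Nat.pow_pos (by norm_num))

end Pool.Agent.Helper12.MT
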